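import Pool.Agent.H18.DS.Main

/-!
# Lindelof spaces with points G_delta and continuous functions on the deleted square
-/

set_option autoImplicit false

open Set Filter Topology Cardinal

universe u

namespace Pool.Agent.Results.MP_2149f8_gt.DeletedSquare

/-- Let `X` be a Hausdorff Lindelof space with all points `G_delta` (for instance an Lpsi-space), and let `φ i` be real
functions on `X × X` that are continuous off the diagonal and such that for all `x ≠ y` some `i` has
`φ i (x, y) ≠ φ i (y, x)`. Then `X` has at most `(#ι + 2) ^ ℵ₀` points. -/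
theorem result (X ι : Type u) [TopologicalSpace X] [T2Space X] [LindelofSpace X]
    (hp : ∀ x : X, ∃ U : ℕ → Set X, (∀ n, IsOpen (U n)) ∧ ⋂ n, U n = {x})
    (φ : ι → X × X → ℝ) (hφ : ∀ i, ContinuousOn (φ i) {q | q.1 ≠ q.2})
    (hsep : ∀ x y, x ≠ y → ∃ i, φ i (x, y) ≠ φ i (y, x)) : #X ≤ (#ι + 2) ^ ℵ₀ :=
  H18DS.main hp φ hφ hsep

/-- The case of a continuous weak selection. -/
theorem weak_selection (X : Type u) [TopologicalSpace X] [T2Space X] [LindelofSpace X]
    (hp : ∀ x : X, ∃ U : ℕ → Set X, (∀ n, IsOpen (U n)) ∧ ⋂ n, U n = {x})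
    (f : X → X → X) (hf : Continuous fun q : X × X => f q.1 q.2)
    (hsym : ∀ x y, f x y = f y x) (hsel : ∀ x y, f x y = x ∨ f x y = y) : #X ≤ 𝔠 := by
  classical
  have h3 : (#PUnit.{u + 1} + 2) ^ ℵ₀ ≤ 𝔠 := by
    rw [← aleph0_power_aleph0]
    refine power_le_power_right ?_
    rw [mk_punit]
    exact (add_lt_aleph0 one_lt_aleph0 ofNat_lt_aleph0).le
  refine (result X PUnit.{u + 1} hp (fun _ q => if f q.1 q.2 = q.1 then 1 else 0)
    (fun _ => ?_) ?_).trans h3
  · intro q hq
    obtain ⟨A, B, hA, hB, haA, hbB, hAB⟩ := t2_separation hq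
    have h5 : A ×ˢ B ∈ 𝓝 q := (hA.prod hB).mem_nhds ⟨haA, hbB⟩
    refine ContinuousAt.continuousWithinAt ?_
    rcases hsel q.1 q.2 with h | h
    · have h3 : (fun q : X × X => f q.1 q.2) ⁻¹' A ∈ 𝓝 q := by
        refine (hA.preimage hf).mem_nhds ?_
        change f q.1 q.2 ∈ A
        rwa [h]
      have h6 : (fun q : X × X => if f q.1 q.2 = q.1 then (1 : ℝ) else 0) =ᶠ[𝓝 q] fun _ => 1 := by
        filter_upwards [h3, h5] with r hr1 hr2
        have h7 : f r.1 r.2 ≠ r.2 := by
          intro h
          have h8 : f r.1 r.2 ∈ A := hr1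
          rw [h] at h8
          exact disjoint_left.1 hAB h8 hr2.2
        rw [if_pos ((hsel r.1 r.2).resolve_right h7)]
      exact continuousAt_const.congr h6.symm
    · have h3 : (fun q : X × X => f q.1 q.2) ⁻¹' B ∈ 𝓝 q := by
        refine (hB.preimage hf).mem_nhds ?_
        change f q.1 q.2 ∈ B
        rwa [h]
      have h6 : (fun q : X × X => if f q.1 q.2 = q.1 then (1 : ℝ) else 0) =ᶠ[𝓝 q] fun _ => 0 := by
        filter_upwards [h3, h5] with r hr1 hr2
        have h7 : f r.1 r.2 ≠ r.1 := by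
          intro h
          have h8 : f r.1 r.2 ∈ B := hr1
          rw [h] at h8
          exact disjoint_left.1 hAB hr2.1 h8
        rw [if_neg h7]
      exact continuousAt_const.congr h6.symm
  · intro x y hxy
    refine ⟨PUnit.unit, ?_⟩
    simp only
    rcases hsel x y with h | h
    · rw [if_pos h, hsym y x, h, if_neg hxy]
      exact one_ne_zero
    · rw [if_neg (fun h' => hxy (h'.symm.trans h)), hsym y x, if_pos h]
      exact zero_ne_one

end Pool.Agent.Results.MP_2149f8_gt.DeletedSquare
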