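import Pool.Agent.H18.LP.MaltMu

/-!
# Lindelof spaces with separately continuous operations of Mal'tsev type
-/

set_option autoImplicit false

open Set Filter Topology Cardinal

universe u

namespace Pool.Agent.Results.MP_2149f8_gt.MaltsevOperations

/-- Let `X` be a Lindelof space with all points `G_delta`, `mu ^ ℵ₀ = mu`, and `Y i` (`i` in a set of at most `mu`
elements) spaces in which every point is the intersection of the closures of at most `mu` open neighbourhoods,
`p i : X → X → X → Y i` separately continuous (continuous in each variable) with `p i x x z = e i z` for all `x`, `z`, and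
suppose that for all `x ≠ y` some `i` has `p i x y y ≠ e i y`. Then `X` has at most `mu` points. -/
theorem result (X : Type u) [TopologicalSpace X] [LindelofSpace X]
    (hp : ∀ x : X, ∃ U : ℕ → Set X, (∀ n, IsOpen (U n)) ∧ ⋂ n, U n = {x})
    (mu : Cardinal.{u}) (hm : mu ^ ℵ₀ = mu) (hm2 : 2 ≤ mu) (ι Λ : Type u) (hι : #ι ≤ mu)
    (hΛ : #Λ ≤ mu) (Y : ι → Type u) [∀ i, TopologicalSpace (Y i)]
    (hY : ∀ i (y : Y i), ∃ G : Λ → Set (Y i), (∀ n, IsOpen (G n) ∧ y ∈ G n) ∧
      ⋂ n, closure (G n) = {y})
    (e : ∀ i, X → Y i) (p : ∀ i, X → X → X → Y i)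
    (c1 : ∀ i y z, Continuous fun x => p i x y z) (c2 : ∀ i x z, Continuous fun y => p i x y z)
    (c3 : ∀ i x y, Continuous fun z => p i x y z) (h1 : ∀ i x z, p i x x z = e i z)
    (h2 : ∀ x y, (∀ i, p i x y y = e i y) → x = y) : #X ≤ mu :=
  H18LP.maltsev_mu hp mu hm hm2 hι hΛ hY e p c1 c2 c3 h1 h2

/-- An Lpsi-space with a separately continuous Mal'tsev operation (`M x x z = z`, `M x y y = x`) has at most continuum
many points. -/
theorem maltsev (X : Type u) [TopologicalSpace X] (h : H18LP.LPsi X) (M : X → X → X → X)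
    (c1 : ∀ y z, Continuous fun x => M x y z) (c2 : ∀ x z, Continuous fun y => M x y z)
    (c3 : ∀ x y, Continuous fun z => M x y z) (h1 : ∀ x z, M x x z = z)
    (h2 : ∀ x y, M x y y = x) : #X ≤ 𝔠 := by
  have := h.lindelof
  refine result X h.points 𝔠 continuum_power_aleph0
    ((ofNat_lt_aleph0.le).trans aleph0_le_continuum) PUnit.{u + 1} (ULift.{u} ℕ)
    (by rw [mk_punit]; exact one_le_aleph0.trans aleph0_le_continuum)
    (by simpa using aleph0_le_continuum) (fun _ => X) (fun _ y => ?_) (fun _ z => z)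
    (fun _ => M) (fun _ => c1) (fun _ => c2) (fun _ => c3) (fun _ => h1) (fun x y hxy => ?_)
  · obtain ⟨G, a, b, c⟩ := H18LP.closed_nhds h y
    refine ⟨fun n => G n.down, fun n => ⟨a n.down, b n.down⟩, ?_⟩
    rw [← c]
    exact Equiv.ulift.surjective.iInter_comp (fun n => closure (G n))
  · rw [← h2 x y]
    exact hxy PUnit.unit

end Pool.Agent.Results.MP_2149f8_gt.MaltsevOperations
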