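import Pool.Agent.H18.LP.Bound

/-!
If the cardinalities of the Lpsi-spaces (Hausdorff regular Lindelof spaces with all points G_delta) are bounded, then
the least cardinal lam such that every Lpsi-space has fewer than lam points is regular, larger than the
continuum, and mu ^ aleph_0 < lam for all mu < lam.
-/

open Cardinal

universe u

namespace Pool.Agent.Results.MP_2149f8_gt.SizeBound

theorem result (lam : Cardinal.{u})
    (h1 : ∀ (X : Type u) [TopologicalSpace X], H18LP.LPsi X → #X < lam)
    (h2 : ∀ mu < lam, ∃ (X : Type u) (_ : TopologicalSpace X), H18LP.LPsi X ∧ mu ≤ #X) :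
    lam.IsRegular ∧ 𝔠 < lam ∧ ∀ mu < lam, mu ^ ℵ₀ < lam :=
  H18LP.bound lam h1 h2

end Pool.Agent.Results.MP_2149f8_gt.SizeBound
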