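import Pool.Agent.H18.LP.ReachMu

/-!
An Lpsi-space (Hausdorff regular Lindelof space with all points G_delta) with more than mu = mu ^ kappa points has a
nonempty closed subspace K such that, for every choice of mu open subsets W i y of K for each point y of K, every
nonempty open subset of K contains more than mu points at which K has tightness larger than kappa and which are not
reached by the sets W i y.
-/

open Cardinal

universe u

namespace Pool.Agent.Results.MP_2149f8_gt.UnreachedPoints

theorem result (X : Type u) [TopologicalSpace X] (h : H18LP.LPsi X) (kappa mu : Cardinal.{u})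
    (hk : ℵ₀ ≤ kappa) (hm : mu ^ kappa = mu) (hm2 : 2 ≤ mu) (hX : mu < #X) :
    ∃ K : Set X, IsClosed K ∧ K.Nonempty ∧
      ∀ (ι : Type u) (W : ι → K → Set K), #ι ≤ mu → (∀ i y, IsOpen (W i y)) →
        ∀ O : Set K, IsOpen O → O.Nonempty →
          mu < #{x : K | x ∈ O ∧ x ∈ H18LP.Loose K kappa ∧ ¬ H18LP.Reaches W x} :=
  H18LP.dense_unreached_mu X h kappa mu hk hm hm2 hX

end Pool.Agent.Results.MP_2149f8_gt.UnreachedPoints
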